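import Pool.Agent.H37.RW2.Z
import Pool.Agent.H91.FR.HtG

/-!
# The numbers of the row of the second place of a pair

`htn_num'`: the numbers `HtN` of the heights of the places `r₀ ≤ i ≤ r + 1` along a list of windows
`wb 0 = o, …, wb M = v` with small steps, from the slopes `Sl l` of the levels, with
`Sl (r + 1) ≤ Sl r`.

`row_num`: for windows of a set `G` with small gaps on `[v, v + q]`, the row `RowN` of the digits
`(Sl (r + 1) x, Sl (r + 1) y]` behind the natural ones of `c (r + 1)`, given the digits `Sl r y`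
behind the natural ones of `c r`, for all `0 ≤ x ≤ y ≤ q`.
-/

set_option autoImplicit false

namespace Pool.RW37

open Finset Real MvPolynomial
open Pool.Agent.H49.Ent Pool.Agent.H32.Dense Pool.STK Pool.KA Pool.KSAT Pool.K2S Pool.PB Pool.GEN
open Pool.S6C Pool.RCD Pool.LA91 Pool.OWN68 Pool.CHT Pool.AJX
open Pool.GRD (LbP Pb_mono_pos)
open Pool.UNJ (ceI Tub)
open Pool.BFL (Pb)

variable {m J : ℕ}

/-- **The numbers of the heights** of a pair `c r`, `c (r + 1)` over a nested chain, from the slopes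
of the levels. The known digits of the place `l < r` are `f l` behind the natural ones, the ones of
`c r` are `gu`. -/
theorem htn_num' {r₀ r M : ℕ} (hr : r₀ ≤ r) {wb : ℕ → ℝ} {sn : ℕ → ℝ → ℝ} {n Nl f Sl : ℕ → ℝ}
    {v o U ρ ν φ Λ bu gu qN : ℝ} (h0 : wb 0 = o) (hM : wb M = v)
    (hw : ∀ k ≤ M, v ≤ wb k ∧ wb k ≤ o) (hst : ∀ k < M, wb (k + 1) ≤ wb k ∧ wb k ≤ wb (k + 1) + ν)
    (hv0 : 0 ≤ v) (ho1 : o < 1) (hU : U ≤ 1) (hρ : 0 < ρ) (hφ : 0 ≤ φ)
    (hsl : ∀ l, r₀ ≤ l → l ≤ r + 1 → 0 ≤ Sl l ∧ Sl l ≤ Λ ∧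
      ∀ k ≤ M, |sn l (wb k) - sn l v - Sl l * (wb k - v)| ≤ φ)
    (hS : Sl (r + 1) ≤ Sl r) (hn : ∀ l, r₀ ≤ l → l < r → n l = sn l v + f l)
    (hbu : bu = sn r v + gu)
    (hf : ∀ l, r₀ ≤ l → l < r → ∀ l', r₀ ≤ l' → l' < l →
      f l + Λ * (o - v) + 2 * φ + ρ ≤ f l')
    (hfg : ∀ l, r₀ ≤ l → l < r → gu + Λ * (o - v) + 2 * φ + ρ ≤ f l)
    (hf2 : ∀ l, r₀ ≤ l → l < r → 2 * (Λ * (o - v)) + 4 * φ + 2 * ρ ≤ f l)
    (hg : Sl r * (o - v) + φ + ρ < gu)
    (hUf : ∀ l, r₀ ≤ l → l < r → f l + φ ≤ U - o) (hUg : gu + φ ≤ U - o)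
    (hUX : Λ * (o - v) + 2 * φ ≤ U - o)
    (hNl : ∀ i, r₀ ≤ i → i ≤ r → Nl i = sn i o - ρ) (hNr : Nl (r + 1) = sn (r + 1) v + qN)
    (hq1 : qN + 2 * ρ + 2 * φ + Sl (r + 1) * ν ≤ Sl (r + 1) * (o - v) + (gu - Sl r * (o - v)))
    (hq2 : qN + ρ + φ ≤ Sl (r + 1) * (o - v)) :
    HtN r₀ (r + 1) M wb sn (Function.update n r bu) Nl v o U ρ := by
  have hvo : v ≤ o := by
    have := (hw 0 (Nat.zero_le _)).1
    rwa [h0] at this
  have hX0 : 0 ≤ o - v := by linarith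
  have hΛ0 : 0 ≤ Λ := (hsl r hr (by omega)).1.trans (hsl r hr (by omega)).2.1
  have hΛX : 0 ≤ Λ * (o - v) := mul_nonneg hΛ0 hX0
  -- the levels at the windows
  have hlv : ∀ l, r₀ ≤ l → l ≤ r + 1 → ∀ k ≤ M, sn l v - φ ≤ sn l (wb k) ∧
      sn l (wb k) ≤ sn l v + Sl l * (o - v) + φ ∧
      sn l (wb k) ≤ sn l v + Λ * (o - v) + φ := by
    intro l hl0 hl k hk
    obtain ⟨s0, s1, s2⟩ := hsl l hl0 hl
    have h3 := abs_le.1 (s2 k hk)
    obtain ⟨w1, w2⟩ := hw k hk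
    have h4 : 0 ≤ Sl l * (wb k - v) := mul_nonneg s0 (by linarith)
    have h5 : Sl l * (wb k - v) ≤ Sl l * (o - v) := mul_le_mul_of_nonneg_left (by linarith) s0
    have h6 : Sl l * (o - v) ≤ Λ * (o - v) := mul_le_mul_of_nonneg_right s1 hX0
    exact ⟨by linarith [h3.1], by linarith [h3.2], by linarith [h3.2]⟩
  have hlo : ∀ l, r₀ ≤ l → l ≤ r + 1 → sn l v + Sl l * (o - v) - φ ≤ sn l o ∧
      sn l o ≤ sn l v + Λ * (o - v) + φ := by
    intro l hl0 hl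
    have h3 := abs_le.1 ((hsl l hl0 hl).2.2 0 (Nat.zero_le _))
    have h4 := hlv l hl0 hl 0 (Nat.zero_le _)
    rw [h0] at h3 h4
    exact ⟨by linarith [h3.1], h4.2.2⟩
  have hmn : ∀ l, r₀ ≤ l → l ≤ r + 1 → ∀ k ≤ M, sn l v - φ ≤ min (sn l v) (sn l (wb k)) :=
    fun l a b k hk => le_min (by linarith) (hlv l a b k hk).1
  have hmn2 : ∀ l, r₀ ≤ l → l ≤ r + 1 → ∀ k < M,
      sn l v - φ ≤ min (sn l (wb k)) (sn l (wb (k + 1))) :=
    fun l a b k hk => le_min (hlv l a b k hk.le).1 (hlv l a b (k + 1) hk).1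
  have hmx : ∀ k < M, max (wb k) (wb (k + 1)) = wb k := fun k hk => max_eq_left (hst k hk).1
  have hnl : ∀ l, r₀ ≤ l → l < r → Function.update n r bu l = sn l v + f l := by
    intro l a b
    rw [Function.update_of_ne (by omega), hn l a b]
  have hnr : Function.update n r bu r = sn r v + gu := by
    rw [Function.update_self, hbu]
  have hSr : Sl (r + 1) * (o - v) ≤ Λ * (o - v) :=
    mul_le_mul_of_nonneg_right (hsl (r + 1) (by omega) le_rfl).2.1 hX0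
  refine
    { b0 := h0
      bM := hM
      bw := hw
      w0 := hv0
      o1 := ho1
      oU := by
        have := mul_nonneg (hsl r hr (by omega)).1 hX0
        linarith
      U1 := hU
      ρ0 := hρ
      far1 := fun l a b k hk => ?_
      far2 := fun l a b k hk => ?_
      far3 := fun l a b l' a' b' k hk => ?_
      top := fun i a b => ?_
      st1 := fun i a b k hk => ?_
      st2 := fun i a b l a' b' k hk => ?_ }
  · obtain ⟨g1, g2, g3⟩ := hlv l a (by omega) k hk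
    rcases Nat.lt_or_ge l r with hl | hl
    · rw [hnl l a hl]
      linarith [hf2 l a hl]
    · obtain rfl : l = r := by omega
      rw [hnr]
      linarith
  · have g1 := hmn l a (by omega) k hk
    have g2 := (hw k hk).2
    rcases Nat.lt_or_ge l r with hl | hl
    · rw [hnl l a hl]
      linarith [hUf l a hl]
    · obtain rfl : l = r := by omega
      rw [hnr]
      linarith
  · have g1 := hmn l a (by omega) k hk
    have g2 := (hlv l' a' (by omega) k hk).2.2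
    rw [hnl l' a' (by omega)]
    rcases Nat.lt_or_ge l r with hl | hl
    · rw [hnl l a hl]
      linarith [hf l a hl l' a' b']
    · obtain rfl : l = r := by omega
      rw [hnr]
      linarith [hfg l' a' b']
  · rcases Nat.lt_or_ge r i with hi | hi
    · obtain rfl : i = r + 1 := by omega
      rw [hNr]
      linarith [(hlo (r + 1) a le_rfl).1]
    · rw [hNl i a hi]
      linarith
  · have g1 := hmn2 i a b k hk
    have g2 := (hw k hk.le).2
    rw [hmx k hk]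
    rcases Nat.lt_or_ge r i with hi | hi
    · obtain rfl : i = r + 1 := by omega
      rw [hNr]
      linarith
    · rw [hNl i a hi]
      linarith [(hlo i a b).2]
  · rw [hmx k hk]
    rcases Nat.lt_or_ge l r with hl | hl
    · have g1 := hmn2 i a b k hk
      have g2 := (hlv l a' (by omega) k hk.le).2.2
      rw [hnl l a' hl]
      rcases Nat.lt_or_ge r i with hi | hi
      · obtain rfl : i = r + 1 := by omega
        rw [hNr]
        linarith [hf2 l a' hl]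
      · rw [hNl i a hi]
        linarith [hf2 l a' hl, (hlo i a b).2]
    · obtain rfl : l = r := by omega
      obtain rfl : i = l + 1 := by omega
      obtain ⟨s0, s1, s2⟩ := hsl (l + 1) a le_rfl
      obtain ⟨t0, t1, t2⟩ := hsl l a' (by omega)
      obtain ⟨w1, w2⟩ := hw k hk.le
      obtain ⟨w3, w4⟩ := hw (k + 1) hk
      obtain ⟨x1, x2⟩ := hst k hk
      have k1 := abs_le.1 (s2 k hk.le)
      have k2 := abs_le.1 (s2 (k + 1) hk)
      have k3 := abs_le.1 (t2 k hk.le)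
      have k4 : Sl (l + 1) * (wb k - v) - Sl (l + 1) * ν ≤ Sl (l + 1) * (wb (k + 1) - v) := by
        rw [← mul_sub]
        exact mul_le_mul_of_nonneg_left (by linarith) s0
      have k5 : Sl (l + 1) * (wb (k + 1) - v) ≤ Sl (l + 1) * (wb k - v) :=
        mul_le_mul_of_nonneg_left (by linarith) s0
      have hν : 0 ≤ Sl (l + 1) * ν := mul_nonneg s0 (by linarith)
      have k6 : sn (l + 1) v + (Sl (l + 1) * (wb k - v) - Sl (l + 1) * ν) - φ ≤
          min (sn (l + 1) (wb k)) (sn (l + 1) (wb (k + 1))) :=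
        le_min (by linarith [k1.1]) (by linarith [k2.1])
      have k7 : (Sl l - Sl (l + 1)) * (wb k - v) ≤ (Sl l - Sl (l + 1)) * (o - v) :=
        mul_le_mul_of_nonneg_left (by linarith) (by linarith)
      rw [hnr, hNr]
      linarith [k3.2]

/-- **A short row** is trivial. -/
theorem rowN_triv {S : PCl m} {C₀ : ℝ} (htm : TmC S C₀) {c : ℕ → Fin m} {r₀ r K : ℕ}
    {E : ℕ → ℝ} {e₀ v U : ℝ} {rd p n : ℕ → ℝ} {bu a b t : ℝ} (hab : a ≤ b)
    (ht : (b - a) * Real.log 2 < t) : RowN S c r₀ r K E e₀ v U rd p n bu a b t := by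
  intro e he hle
  obtain ⟨σ, hσ⟩ : ∃ σ : ℝ, σ = t - (b - a) * Real.log 2 := ⟨_, rfl⟩
  have hσ0 : 0 < σ := by rw [hσ]; linarith
  obtain ⟨J₀, hJ₀⟩ := exists_nat_ge (Real.log 5 / σ)
  refine Bas.mono J₀ (bas_pos htm) ?_
  rintro J hJ F A hpe V z z' g hL
  have hq := isLaw_cond F.isLaw hpe
  have hJ0 : (0 : ℝ) ≤ J := Nat.cast_nonneg J
  have hJr : (J₀ : ℝ) ≤ J := by exact_mod_cast hJ
  have g1 : Real.log 5 ≤ σ * J := by
    have := hJ₀.trans hJr
    rwa [div_le_iff₀ hσ0, mul_comm] at this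
  have g5 := fl_few hq (fun ω => hgt F (c (r + 1)) z' ⌊v * J⌋₊ (fun y => g y (r + 1)) ω)
    (a := a) (b := b) hJ0 (fun ω => (hd F c r z' ⌊v * J⌋₊ g bu ω,
      cx F c r₀ r z' ⌊v * J⌋₊ g n U ω))
  rw [max_eq_left (by linarith : (0 : ℝ) ≤ b - a)] at g5
  refine g5.trans ?_
  have g7 : t * J = (b - a) * Real.log 2 * J + σ * J := by
    rw [hσ]
    ring
  rw [g7]
  nlinarith [g1]

/-- **The chain and the labels** at the windows of a set; of the last place `R` only the labels, with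
a gradient exponent. -/
def ChlG (S : PCl m) (c : ℕ → Fin m) (r₀ R : ℕ) (sn : ℕ → ℝ → ℝ) (G : Set ℝ) : Prop :=
  ∀ w ∈ G, ∃ (u₁ : ℝ) (rd : ℕ → ℝ), (∀ i, r₀ ≤ i → i ≤ R → 0 ≤ rd i) ∧
    Chn S c r₀ R w w u₁ (fun l => sn l w) rd ∧
    ∃ E : ℝ, 0 ≤ E ∧ Pool.V0F.LbU S ((range R).image c) (c R) w (sn R w) (rd R) E

/-- From a chain with the place `R`. -/
theorem ChlG.of {S : PCl m} {c : ℕ → Fin m} {r₀ R : ℕ} {sn : ℕ → ℝ → ℝ} {G : Set ℝ}
    (hr : r₀ ≤ R) (h : ∀ w ∈ G, ∃ (u₁ : ℝ) (rd : ℕ → ℝ), (∀ i, r₀ ≤ i → i ≤ R → 0 ≤ rd i) ∧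
      Chn S c r₀ (R + 1) w w u₁ (fun l => sn l w) rd) : ChlG S c r₀ R sn G := by
  intro w hw
  obtain ⟨u₁, rd, h1, h2⟩ := h w hw
  exact ⟨u₁, rd, h1, h2.take hr (Nat.le_succ _), 0, le_rfl,
    (h2.att R hr (Nat.lt_succ_self _)).lbU⟩

/-- The chain at the windows of `G`, with the empty base. -/
theorem ChlG.of0 {S : PCl m} {c : ℕ → Fin m} {R : ℕ} {sn : ℕ → ℝ → ℝ} {G : Set ℝ}
    (h : ChG S c (R + 1) sn G) : ChlG S c 0 R sn G := by
  refine ChlG.of (Nat.zero_le _) fun w hw => ?_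
  obtain ⟨u₁, rd, h1, h2⟩ := h.ch w hw
  exact ⟨u₁, rd, fun i _ hi => h1 i (by omega), h2⟩

/-- The chain and the labels at the windows of a list. -/
theorem ChlG.chl {S : PCl m} {c : ℕ → Fin m} {r₀ R M : ℕ} {sn : ℕ → ℝ → ℝ} {G : Set ℝ}
    {b : ℕ → ℝ} (h : ChlG S c r₀ R sn G) (hb : ∀ k ≤ M, b k ∈ G) : ChL S c r₀ R M b sn :=
  fun k hk => h _ (hb k hk)

/-- **The rows of the second place** for windows of a set with small gaps. -/
theorem row_num {S : PCl m} {C₀ : ℝ} (htm : TmC S C₀) {c : ℕ → Fin m} {r₀ r K : ℕ}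
    (hr : r₀ ≤ r) {sn : ℕ → ℝ → ℝ} {G : Set ℝ} {n f Sl E rd : ℕ → ℝ}
    {v q ρ ρ₀ ν φ Λ U h δ₁ g₀ : ℝ}
    (hch : ChlG S c r₀ (r + 1) sn G) (hp : 0 ≤ sn (r + 1) v)
    (hv : v ∈ G) (hgap : ∀ x, v ≤ x → x ≤ v + q → ∃ w ∈ G, |w - x| ≤ ρ₀) (hρ₀ : 0 ≤ ρ₀)
    (hν : 2 * ρ₀ < ν) (hρ : 0 < ρ) (hφ : 0 ≤ φ) (hU : U < 1)
    (hsl : ∀ l, r₀ ≤ l → l ≤ r + 1 → 0 ≤ Sl l ∧ Sl l ≤ Λ ∧
      ∀ w ∈ G, v ≤ w → w ≤ v + q → |sn l w - sn l v - Sl l * (w - v)| ≤ φ)
    (hS : Sl (r + 1) ≤ Sl r) (hn : ∀ l, r₀ ≤ l → l < r → n l = sn l v + f l)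
    (hf : ∀ l, r₀ ≤ l → l < r → ∀ l', r₀ ≤ l' → l' < l → f l + Λ * q + 2 * φ + ρ ≤ f l')
    (hf2 : ∀ l, r₀ ≤ l → l < r → 2 * (Λ * q) + 4 * φ + 2 * ρ ≤ f l)
    (hUf : ∀ l, r₀ ≤ l → l < r → f l + φ ≤ U - (v + q)) (hUX : Λ * q + 2 * φ ≤ U - (v + q))
    (hg₀ : 0 < g₀) (hE : ∀ i, r₀ ≤ i → i ≤ r + 1 → 0 ≤ E i ∧ E i ≤ 1)
    (hrd : ∀ i, r₀ ≤ i → i ≤ r + 1 → 0 ≤ rd i ∧ rd i + g₀ ≤ 1)
    (hnE : ∀ i, r₀ ≤ i → i < r → n i + E i + g₀ ≤ 1) (huE : sn r v + Sl r * q + E r + g₀ ≤ 1)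
    (hNE : sn (r + 1) v + Sl (r + 1) * q + E (r + 1) + g₀ ≤ 1)
    (hraw : ∀ Q, 0 ≤ Q → Q ≤ Sl (r + 1) * q →
      RawN S ((range (r + 1)).image c) (c (r + 1)) (sn (r + 1) v) Q h δ₁)
    (hδ₁ : 0 ≤ δ₁) (h1 : h ≤ 1) {x y t : ℝ} (hx : 0 ≤ x) (hxy : x ≤ y) (hyq : y ≤ q)
    (ht : (1 - h) * (Sl (r + 1) * (y - x)) * Real.log 2 + (δ₁ + (r + 1) * ρ) +
      (3 * (φ + ρ) + 2 * (Sl (r + 1) * ν)) * Real.log 2 < t) :
    RowN S c r₀ r K E (min (ρ / 8) (g₀ / 2)) v U rd (fun l => sn l v) n (sn r v + Sl r * y)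
      (sn (r + 1) v + Sl (r + 1) * x) (sn (r + 1) v + Sl (r + 1) * y) t := by
  have hl2 : 0 < Real.log 2 := Real.log_pos one_lt_two
  have hh : 0 ≤ 1 - h := by linarith
  have hν0 : 0 < ν := by linarith
  obtain ⟨sN0, sN1, sN2⟩ := hsl (r + 1) (by omega) le_rfl
  obtain ⟨su0, su1, su2⟩ := hsl r hr (by omega)
  have hy0 : 0 ≤ y := hx.trans hxy
  have hq0 : 0 ≤ q := hy0.trans hyq
  have hr0 : (0 : ℝ) ≤ r := Nat.cast_nonneg r
  have hSx : 0 ≤ Sl (r + 1) * x := mul_nonneg sN0 hx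
  have hSxy : Sl (r + 1) * x ≤ Sl (r + 1) * y := mul_le_mul_of_nonneg_left hxy sN0
  have hSν : 0 ≤ Sl (r + 1) * ν := mul_nonneg sN0 hν0.le
  have hrρ : 0 ≤ ((r : ℝ) + 1) * ρ := by positivity
  rcases le_or_gt (Sl (r + 1) * y) (3 * (φ + ρ) + 2 * (Sl (r + 1) * ν)) with hy | hy
  · -- a short row
    refine rowN_triv htm (by linarith) ?_
    have g1 : 0 ≤ (1 - h) * (Sl (r + 1) * (y - x)) * Real.log 2 :=
      mul_nonneg (mul_nonneg hh (mul_nonneg sN0 (by linarith))) hl2.le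
    have g2 : (sn (r + 1) v + Sl (r + 1) * y - (sn (r + 1) v + Sl (r + 1) * x)) * Real.log 2 ≤
        (3 * (φ + ρ) + 2 * (Sl (r + 1) * ν)) * Real.log 2 :=
      mul_le_mul_of_nonneg_right (by linarith) hl2.le
    linarith
  · have hN0 : 0 < Sl (r + 1) := by
      rcases sN0.lt_or_eq with h3 | h3
      · exact h3
      · rw [← h3] at hy
        simp only [zero_mul, mul_zero, add_zero] at hy
        linarith
    have hu0 : 0 < Sl r := lt_of_lt_of_le hN0 hS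
    obtain ⟨κ, hκ⟩ : ∃ κ : ℝ, κ = (φ + ρ) / Sl r := ⟨_, rfl⟩
    have hκ0 : 0 ≤ κ := by rw [hκ]; positivity
    have hκ1 : Sl r * κ = φ + ρ := by
      rw [hκ]
      field_simp
    have hκ2 : Sl (r + 1) * κ ≤ φ + ρ := by
      rw [← hκ1]
      exact mul_le_mul_of_nonneg_right hS hκ0
    have hyκ : κ + ν < y := by
      have h3 : Sl (r + 1) * (κ + ν) < Sl (r + 1) * y := by
        rw [mul_add]
        linarith
      exact lt_of_mul_lt_mul_left h3 hN0.le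
    obtain ⟨o, ho, ho1⟩ := hgap (v + (y - κ - ν + ρ₀)) (by linarith) (by linarith)
    rw [abs_le] at ho1
    have hvo : v ≤ o := by linarith
    have hoy : o - v ≤ y - κ - (ν - 2 * ρ₀) := by linarith
    have hoy' : y - κ - ν ≤ o - v := by linarith
    have hoq : o ≤ v + q := by linarith
    have hX0 : 0 ≤ o - v := by linarith
    have hXq : o - v ≤ q := by linarith
    have hΛ0 : 0 ≤ Λ := su0.trans su1
    have hΛX : Λ * (o - v) ≤ Λ * q := mul_le_mul_of_nonneg_left hXq hΛ0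
    obtain ⟨N, hN⟩ := exists_nat_ge ((o - v) / (ν - 2 * ρ₀))
    rw [div_le_iff₀ (by linarith)] at hN
    obtain ⟨M, wb, b0, bM, hb, hst⟩ := gseq (h := ν) hv hν N o ho hvo hN
      (fun x hx1 hx2 => hgap x hx1 (by linarith))
    obtain ⟨u₁, rd₁, hrd₁, hc₁, -⟩ := hch o ho
    obtain ⟨u₂, rd₂, hrd₂, hc₂, -⟩ := hch v hv
    have hg : Sl r * (o - v) + φ + ρ < Sl r * y := by
      have h3 : Sl r * (o - v) ≤ Sl r * (y - κ - (ν - 2 * ρ₀)) :=
        mul_le_mul_of_nonneg_left hoy hu0.le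
      have h4 : Sl r * (y - κ - (ν - 2 * ρ₀)) = Sl r * y - Sl r * κ - Sl r * (ν - 2 * ρ₀) := by
        ring
      have h5 : 0 < Sl r * (ν - 2 * ρ₀) := mul_pos hu0 (by linarith)
      linarith
    have hgy : Sl r * y ≤ Λ * q := mul_le_mul su1 hyq hy0 hΛ0
    obtain ⟨qN, hqN⟩ : ∃ qN : ℝ, qN = Sl (r + 1) * (o - v) - 2 * ρ - 2 * φ - Sl (r + 1) * ν :=
      ⟨_, rfl⟩
    have hSX : Sl (r + 1) * (y - κ - ν) ≤ Sl (r + 1) * (o - v) :=
      mul_le_mul_of_nonneg_left hoy' hN0.le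
    have hSX2 : Sl (r + 1) * (y - κ - ν) = Sl (r + 1) * y - Sl (r + 1) * κ - Sl (r + 1) * ν := by
      ring
    have hSX3 : Sl (r + 1) * (o - v) ≤ Sl (r + 1) * q := mul_le_mul_of_nonneg_left hXq hN0.le
    have hSX4 : Sl (r + 1) * (o - v) ≤ Sl (r + 1) * y :=
      mul_le_mul_of_nonneg_left (by linarith) hN0.le
    have hqN0 : 0 ≤ qN := by
      rw [hqN]
      linarith
    have hqNq : qN ≤ Sl (r + 1) * q := by
      rw [hqN]
      linarith
    obtain ⟨Nl, hNl⟩ : ∃ Nl : ℕ → ℝ, Nl = fun i => if i ≤ r then sn i o - ρ else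
      sn (r + 1) v + qN := ⟨_, rfl⟩
    have hNl1 : ∀ i, i ≤ r → Nl i = sn i o - ρ := fun i hi => by
      rw [hNl]
      exact if_pos hi
    have hNl2 : Nl (r + 1) = sn (r + 1) v + qN := by
      rw [hNl]
      exact if_neg (by omega)
    have hH := htn_num' hr (wb := wb) (sn := sn) (n := n) (Nl := Nl) (f := f) (Sl := Sl)
      (v := v) (o := o) (U := U) (ρ := ρ) (ν := ν) (φ := φ) (Λ := Λ) (bu := sn r v + Sl r * y)
      (gu := Sl r * y) (qN := qN) b0 bM (fun k hk => (hb k hk).2) hst hc₂.w0 hc₁.u0 hU.le hρ hφ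
      (fun l a b => ⟨(hsl l a b).1, (hsl l a b).2.1, fun k hk =>
        (hsl l a b).2.2 _ (hb k hk).1 (hb k hk).2.1 ((hb k hk).2.2.trans hoq)⟩) hS hn rfl
      (fun l a b l' a' b' => by linarith [hf l a b l' a' b'])
      (fun l a b => by linarith [hf2 l a b])
      (fun l a b => by linarith [hf2 l a b]) hg
      (fun l a b => by linarith [hUf l a b]) (by linarith) (by linarith)
      (fun i _ b => hNl1 i b) hNl2 (by rw [hqN]; linarith) (by rw [hqN]; linarith)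
    have hC : ChL S c r₀ (r + 1) M wb sn := hch.chl fun k hk => (hb k hk).1
    have hso : ∀ i, r₀ ≤ i → i ≤ r + 1 → sn i o ≤ sn i v + Sl i * (o - v) + φ := by
      intro i a b
      have := abs_le.1 ((hsl i a b).2.2 o ho hvo hoq)
      linarith [this.2]
    refine rowN_of htm hr hH hU hC hqN0 hNl2 hp hg₀ hE
      (by linarith) hrd (fun i a b => ?_) (hraw qN hqN0 hqNq) hδ₁ (fun i a b => ?_) h1
      (by linarith) (by linarith) (by rw [hNl2, hqN]; linarith) ?_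
    · rcases Nat.lt_or_ge i r with hi | hi
      · rw [Function.update_of_ne (by omega)]
        exact hnE i a hi
      · obtain rfl : i = r := by omega
        rw [Function.update_self]
        have := mul_le_mul_of_nonneg_left hyq hu0.le
        linarith
    · rcases Nat.lt_or_ge i r with hi | hi
      · rw [Function.update_of_ne (by omega), hNl1 i hi.le, hn i a hi]
        have h3 := hso i a (by omega)
        have h4 : Sl i * (o - v) ≤ Λ * (o - v) :=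
          mul_le_mul_of_nonneg_right (hsl i a (by omega)).2.1 hX0
        have h5 : 0 ≤ Λ * q := mul_nonneg hΛ0 hq0
        linarith [hf2 i a hi]
      · obtain rfl : i = r := by omega
        rw [Function.update_self, hNl1 i le_rfl]
        linarith [hso i a (by omega)]
    · have e1 : ∑ i ∈ Finset.Ico r₀ (r + 1), (sn i o - Nl i) ≤ ((r : ℝ) + 1) * ρ := by
        have e2 : ∑ i ∈ Finset.Ico r₀ (r + 1), (sn i o - Nl i) =
            ∑ i ∈ Finset.Ico r₀ (r + 1), ρ := by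
          refine Finset.sum_congr rfl fun i hi => ?_
          rw [hNl1 i (by have := (Finset.mem_Ico.1 hi).2; omega)]
          ring
        rw [e2, Finset.sum_const, Nat.card_Ico, nsmul_eq_mul]
        have e3 : ((r + 1 - r₀ : ℕ) : ℝ) ≤ ((r + 1 : ℕ) : ℝ) := Nat.cast_le.2 (Nat.sub_le _ _)
        push_cast at e3
        exact mul_le_mul_of_nonneg_right e3 hρ.le
      have e4 : sn (r + 1) v + Sl (r + 1) * y - Nl (r + 1) ≤
          3 * (φ + ρ) + 2 * (Sl (r + 1) * ν) := by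
        rw [hNl2, hqN]
        linarith
      have e5 := mul_le_mul_of_nonneg_right e4 hl2.le
      have e6 : (1 - h) * (sn (r + 1) v + Sl (r + 1) * y - (sn (r + 1) v + Sl (r + 1) * x)) *
          Real.log 2 = (1 - h) * (Sl (r + 1) * (y - x)) * Real.log 2 := by ring
      rw [e6]
      linarith

end Pool.RW37
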